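import Pool.Agent.T2H46.Car.Stm

/-! Package CHB: a limit of quotients of binomial coefficients. -/

set_option autoImplicit false

namespace Pool.Agent.T2H46.Car

open Filter Topology

lemma chb_fac (i : ℕ) : Tendsto (fun m : ℕ => ((m : ℝ) - i) / (2 * m + 1 - i)) atTop (𝓝 (1 / 2)) := by
  have h1 : Tendsto (fun m : ℕ => (1 - (i : ℝ) * (m : ℝ)⁻¹) / (2 + (1 - (i : ℝ)) * (m : ℝ)⁻¹)) atTop
      (𝓝 ((1 - (i : ℝ) * 0) / (2 + (1 - (i : ℝ)) * 0))) := by
    have h0 : Tendsto (fun m : ℕ => (m : ℝ)⁻¹) atTop (𝓝 0) := tendsto_inv_atTop_nhds_zero_nat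
    refine Tendsto.div (tendsto_const_nhds.sub (h0.const_mul _))
      (tendsto_const_nhds.add (h0.const_mul _)) (by norm_num)
  rw [mul_zero, mul_zero, sub_zero, add_zero] at h1
  refine h1.congr' ?_
  filter_upwards [eventually_gt_atTop 0] with m hm
  have hm0 : (m : ℝ) ≠ 0 := by positivity
  rw [← mul_div_mul_left (1 - (i : ℝ) * (m : ℝ)⁻¹) _ hm0]
  congr 1
  · field_simp
  · field_simp
    ring

lemma chb_desc (m k : ℕ) (h : k ≤ m) : ((m.choose k : ℕ) : ℝ) * (k.factorial : ℝ) =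
    ∏ i ∈ Finset.range k, ((m : ℝ) - i) := by
  have h1 := Nat.descFactorial_eq_factorial_mul_choose m k
  rw [Nat.descFactorial_eq_prod_range] at h1
  have h2 : ((∏ i ∈ Finset.range k, (m - i) : ℕ) : ℝ) = ((k.factorial * m.choose k : ℕ) : ℝ) := by
    rw [h1]
  push_cast at h2
  rw [mul_comm, ← h2]
  refine Finset.prod_congr rfl fun i hi => ?_
  rw [Finset.mem_range] at hi
  rw [Nat.cast_sub (by omega)]

theorem chb : CHB := by
  intro n
  have h1 : Tendsto (fun m : ℕ => 2 * ∏ i ∈ Finset.range (2 * n + 1),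
      (((m : ℝ) - i) / (2 * m + 1 - i))) atTop
      (𝓝 (2 * ∏ i ∈ Finset.range (2 * n + 1), (1 / 2 : ℝ))) :=
    (tendsto_finset_prod _ fun i _ => chb_fac i).const_mul 2
  have h2 : (2 * ∏ i ∈ Finset.range (2 * n + 1), (1 / 2 : ℝ)) = (1 / 4) ^ n := by
    rw [Finset.prod_const, Finset.card_range, pow_succ, pow_mul]
    norm_num
    ring
  rw [h2] at h1
  refine h1.congr' ?_
  filter_upwards [eventually_ge_atTop (2 * n + 1)] with m hm
  have h3 := chb_desc m (2 * n + 1) hm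
  have h4 := chb_desc (2 * m + 1) (2 * n + 1) (by omega)
  have hf : ((2 * n + 1).factorial : ℝ) ≠ 0 := by positivity
  rw [Finset.prod_div_distrib, ← h3]
  have h5 : ∏ i ∈ Finset.range (2 * n + 1), ((2 * (m : ℝ) + 1) - i) =
      (((2 * m + 1).choose (2 * n + 1) : ℕ) : ℝ) * ((2 * n + 1).factorial : ℝ) := by
    rw [h4]
    push_cast
    rfl
  rw [h5, mul_div_mul_right _ _ hf]
  ring

end Pool.Agent.T2H46.Car
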