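import Pool.Agent.T2H46.Car.Stm

/-! Package EX: existence of an optimal strategy. -/

set_option autoImplicit false

namespace Pool.Agent.T2H46.Car

open Filter Topology

lemma ex_sg_antisymm {V : Type} (U : Tour V) (u v : V) : sg U u v = - sg U v u := by
  classical
  unfold sg
  by_cases h : u = v
  · subst h
    have := U.irrefl u
    simp [this]
  · have h1 := U.total u v h
    by_cases h2 : U.arc u v
    · have h3 : ¬ U.arc v u := h1.1 h2
      simp [h2, h3]
    · have h3 : U.arc v u := by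
        by_contra h4
        exact h2 (h1.2 h4)
      simp [h2, h3]

theorem ex : EX := by
  classical
  intro V U X hX
  haveI : Nonempty {u // u ∈ X} := ⟨⟨hX.choose, hX.choose_spec⟩⟩
  let M : ({u // u ∈ X} → ℝ) →ₗ[ℝ] ({u // u ∈ X} → ℝ) :=
    { toFun := fun p v => ∑ u, p u * sg U u v
      map_add' := fun x y => by
        funext v
        simp only [Pi.add_apply, add_mul, Finset.sum_add_distrib]
      map_smul' := fun c x => by
        funext v
        simp only [Pi.smul_apply, smul_eq_mul, RingHom.id_apply, mul_assoc, Finset.mul_sum] }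
  have hM : ∀ p v, M p v = ∑ u, p u * sg U u v := fun p v => rfl
  -- it suffices to find a strategy on the subtype
  suffices h : ∃ p ∈ stdSimplex ℝ {u // u ∈ X}, ∀ v, 0 ≤ M p v by
    obtain ⟨p, hp, hpv⟩ := h
    have e : ∀ (g : V → ℝ), ∑ u ∈ X, (if hu : u ∈ X then p ⟨u, hu⟩ else 0) * g u =
        ∑ u : {u // u ∈ X}, p u * g u := by
      intro g
      rw [← Finset.sum_coe_sort X (fun u => (if hu : u ∈ X then p ⟨u, hu⟩ else 0) * g u)]
      refine Finset.sum_congr rfl fun u _ => ?_
      rw [dif_pos u.2]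
    refine ⟨fun u => if hu : u ∈ X then p ⟨u, hu⟩ else 0, fun u hu => ?_, ?_, fun v hv => ?_⟩
    · beta_reduce
      rw [dif_pos hu]
      exact hp.1 _
    · have := e (fun _ => 1)
      simp only [mul_one] at this
      rw [this]
      exact hp.2
    · rw [e (fun u => sg U u v)]
      exact hpv ⟨v, hv⟩
  by_contra hno
  push Not at hno
  have hMc : Continuous M := LinearMap.continuous_of_finiteDimensional M
  have hK1 : Convex ℝ (M '' stdSimplex ℝ {u // u ∈ X}) := (convex_stdSimplex ℝ _).linear_image M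
  have hK2 : IsCompact (M '' stdSimplex ℝ {u // u ∈ X}) := (isCompact_stdSimplex ℝ _).image hMc
  have hC1 : Convex ℝ {y : {u // u ∈ X} → ℝ | ∀ v, 0 ≤ y v} := by
    intro x hx y hy a b ha hb _ v
    simp only [Pi.add_apply, Pi.smul_apply, smul_eq_mul]
    have := hx v
    have := hy v
    positivity
  have hC2 : IsClosed {y : {u // u ∈ X} → ℝ | ∀ v, 0 ≤ y v} := by
    simp only [Set.ofPred_forall]
    exact isClosed_iInter fun v => isClosed_le continuous_const (continuous_apply v)
  have hd : Disjoint (M '' stdSimplex ℝ {u // u ∈ X}) {y : {u // u ∈ X} → ℝ | ∀ v, 0 ≤ y v} := by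
    rw [Set.disjoint_left]
    rintro _ ⟨p, hp, rfl⟩ h2
    obtain ⟨v, hv⟩ := hno p hp
    exact absurd (h2 v) (not_le.2 hv)
  obtain ⟨f, a, b, h1, h2, h3⟩ := geometric_hahn_banach_compact_closed hK1 hK2 hC1 hC2 hd
  have hb0 : b < 0 := by
    have := h3 0 (fun v => le_rfl)
    rwa [map_zero] at this
  obtain ⟨q, hq⟩ : ∃ q : {u // u ∈ X} → ℝ, q = fun v => f (Pi.single v 1) := ⟨_, rfl⟩
  have hf : ∀ y : {u // u ∈ X} → ℝ, f y = ∑ v, y v * q v := by
    intro y
    have e1 : y = ∑ v, y v • (Pi.single v (1:ℝ) : {u // u ∈ X} → ℝ) := by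
      funext w
      rw [Finset.sum_apply]
      simp [Pi.single_apply]
    conv_lhs => rw [e1]
    rw [map_sum]
    refine Finset.sum_congr rfl fun v _ => ?_
    rw [map_smul, hq, smul_eq_mul]
  have hq0 : ∀ v, 0 ≤ q v := by
    intro v
    by_contra hc
    push Not at hc
    have h4 := h3 ((b / q v) • (Pi.single v (1:ℝ) : {u // u ∈ X} → ℝ)) (fun w => by
      have h5 : 0 ≤ b / q v := (div_pos_of_neg_of_neg hb0 hc).le
      rw [Pi.smul_apply, smul_eq_mul, Pi.single_apply]
      split_ifs <;> simp [h5])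
    rw [map_smul, smul_eq_mul] at h4
    have h6 : f (Pi.single v 1) = q v := by rw [hq]
    rw [h6, div_mul_cancel₀ _ hc.ne] at h4
    exact lt_irrefl _ h4
  have hQ : 0 < ∑ v, q v := by
    rcases (Finset.sum_nonneg fun v _ => hq0 v : 0 ≤ ∑ v, q v).lt_or_eq with h4 | h4
    · exact h4
    · exfalso
      have h5 : ∀ v, q v = 0 := fun v =>
        (Finset.sum_eq_zero_iff_of_nonneg (fun v _ => hq0 v)).1 h4.symm v (Finset.mem_univ v)
      have hne : (Pi.single (Classical.arbitrary {u // u ∈ X}) (1:ℝ) : {u // u ∈ X} → ℝ) ∈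
          stdSimplex ℝ {u // u ∈ X} := single_mem_stdSimplex ℝ _
      have h6 := h1 _ ⟨_, hne, rfl⟩
      rw [hf] at h6
      simp only [h5, mul_zero, Finset.sum_const_zero] at h6
      linarith
  have hp : (fun v => q v / ∑ v, q v) ∈ stdSimplex ℝ {u // u ∈ X} := by
    refine ⟨fun v => div_nonneg (hq0 v) hQ.le, ?_⟩
    rw [← Finset.sum_div, div_self hQ.ne']
  have h7 := h1 _ ⟨_, hp, rfl⟩
  rw [hf] at h7
  have h8 : ∑ v, M (fun v => q v / ∑ v, q v) v * q v = 0 := by
    obtain ⟨Q, hQd⟩ : ∃ Q, Q = ∑ v, q v := ⟨_, rfl⟩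
    rw [← hQd]
    have h9 : ∑ v, M (fun v => q v / Q) v * q v =
        ∑ v : {u // u ∈ X}, ∑ u : {u // u ∈ X}, q u / Q * sg U u v * q v := by
      refine Finset.sum_congr rfl fun v _ => ?_
      rw [hM, Finset.sum_mul]
    have h10 : ∑ v : {u // u ∈ X}, ∑ u : {u // u ∈ X}, q u / Q * sg U u v * q v =
        - ∑ v : {u // u ∈ X}, ∑ u : {u // u ∈ X}, q u / Q * sg U u v * q v := by
      conv_lhs => rw [Finset.sum_comm]
      rw [← Finset.sum_neg_distrib]
      refine Finset.sum_congr rfl fun v _ => ?_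
      rw [← Finset.sum_neg_distrib]
      refine Finset.sum_congr rfl fun u _ => ?_
      rw [ex_sg_antisymm U (v : V) (u : V)]
      ring
    rw [h9]
    linarith
  rw [h8] at h7
  linarith

end Pool.Agent.T2H46.Car
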