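import Pool.Agent.T2H46.Car.Stm

/-!
# UPP: the upper bound for limits
-/

set_option autoImplicit false

open Filter Topology

namespace Pool.Agent.T2H46.Car

namespace UPPaux

open Classical in
theorem main (hAVG : AVG) (hTNN : TNN) (hNIN : NIN) (hCNT : CNT) (N M : ℕ) (T : Tour (Fin N))
    (W : Tour (Fin M)) (hN : Odd N) (hNM : N ≤ M) (hT : ∀ S, Induces T W S → Full W S) :
    dens T W ≤ (2 + 3 ^ N * (N : ℝ) ^ 2 / M) / 2 ^ N * ((M : ℝ) / (M + (1 - N))) ^ N := by
  have hN0 : 1 ≤ N := hN.pos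
  have hM0 : 0 < M := by omega
  have hMr : (0 : ℝ) < M := by exact_mod_cast hM0
  -- the number of the copies
  set D : ℕ := (((Finset.univ : Finset (Fin M)).powersetCard N).filter
    (fun S => Induces T W S)).card with hD
  have h6 : D ≤ (((Finset.univ : Finset (Fin M)).powersetCard N).filter (Full W)).card := by
    refine Finset.card_le_card fun S hS => ?_
    rw [Finset.mem_filter] at hS ⊢
    exact ⟨hS.1, hT S hS.2⟩
  -- the last term of the sum
  have h1 : term W N N = 2 ^ N * ((N.factorial *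
      (((Finset.univ : Finset (Fin M)).powersetCard N).filter (Full W)).card : ℕ) : ℝ) := by
    have h5 := hCNT (Fin M) N (Full W)
    have h5' : (((N.factorial *
      (((Finset.univ : Finset (Fin M)).powersetCard N).filter (Full W)).card : ℕ)) : ℝ) =
      ∑ x : Fin N → Fin M, (if Function.Injective x ∧ Full W (Finset.univ.image x) then
        (1 : ℝ) else 0) := by
      rw [Finset.sum_boole]
      congr 1
      convert h5
    rw [h5']
    unfold term
    rw [Nat.choose_self, Nat.cast_one, mul_one, Nat.sub_self]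
    simp only [pow_zero]
    congr!
  have h2 : term W N N ≤ ∑ k ∈ Finset.range (N + 1), term W N k :=
    Finset.single_le_sum (f := fun k => term W N k)
      (fun k hk => hTNN (Fin M) W N k hN (by rw [Finset.mem_range] at hk; omega))
      (Finset.self_mem_range_succ N)
  obtain ⟨ni, h3, h4⟩ : ∃ ni : ℝ, ∑ k ∈ Finset.range (N + 1), term W N k ≤
      2 * (M : ℝ) ^ N + 3 ^ N * ni ∧ ni * M ≤ (N : ℝ) ^ 2 * (M : ℝ) ^ N := by
    have h3 := hAVG (Fin M) W N hN
    have h4 := hNIN (Fin M) N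
    rw [Fintype.card_fin] at h3 h4
    exact ⟨_, h3, by convert h4⟩
  have h7 : (2 : ℝ) ^ N * (N.factorial * D) ≤ 2 * (M : ℝ) ^ N + 3 ^ N * ni := by
    have h8 : ((N.factorial * D : ℕ) : ℝ) ≤ ((N.factorial *
        (((Finset.univ : Finset (Fin M)).powersetCard N).filter (Full W)).card : ℕ) : ℝ) := by
      exact_mod_cast Nat.mul_le_mul_left _ h6
    calc (2 : ℝ) ^ N * (N.factorial * D) = 2 ^ N * ((N.factorial * D : ℕ) : ℝ) := by push_cast; ring
      _ ≤ term W N N := by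
          rw [h1]; exact mul_le_mul_of_nonneg_left h8 (by positivity)
      _ ≤ _ := h2.trans h3
  have h9 : ni ≤ (N : ℝ) ^ 2 * (M : ℝ) ^ N / M := by
    rw [le_div_iff₀ hMr]; exact h4
  have h10 : (2 : ℝ) ^ N * (N.factorial * D) ≤ (2 + 3 ^ N * (N : ℝ) ^ 2 / M) * (M : ℝ) ^ N := by
    refine h7.trans ?_
    have : (3 : ℝ) ^ N * ni ≤ 3 ^ N * ((N : ℝ) ^ 2 * (M : ℝ) ^ N / M) :=
      mul_le_mul_of_nonneg_left h9 (by positivity)
    calc 2 * (M : ℝ) ^ N + 3 ^ N * ni ≤ 2 * (M : ℝ) ^ N + 3 ^ N * ((N : ℝ) ^ 2 * (M : ℝ) ^ N / M) := by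
          linarith
      _ = _ := by ring
  -- the denominator
  have hpos : (0 : ℝ) < M + (1 - N) := by
    have : (N : ℝ) ≤ M := by exact_mod_cast hNM
    linarith
  have h11 : ((M : ℝ) + (1 - N)) ^ N ≤ N.factorial * (M.choose N : ℝ) := by
    have h12 := Nat.pow_sub_le_descFactorial M N
    rw [Nat.descFactorial_eq_factorial_mul_choose] at h12
    have h13 : (((M + 1 - N : ℕ) : ℝ)) ^ N ≤ N.factorial * (M.choose N : ℝ) := by exact_mod_cast h12
    rw [Nat.cast_sub (by omega)] at h13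
    push_cast at h13
    calc ((M : ℝ) + (1 - N)) ^ N = ((M : ℝ) + 1 - N) ^ N := by ring
      _ ≤ _ := h13
  have hch : (0 : ℝ) < M.choose N := by exact_mod_cast Nat.choose_pos hNM
  have hfac : (0 : ℝ) < N.factorial := by exact_mod_cast Nat.factorial_pos N
  have hdens : dens T W = (D : ℝ) / (M.choose N : ℝ) := rfl
  rw [hdens, div_le_iff₀ hch, div_pow]
  have hp : (0 : ℝ) < (M + (1 - N)) ^ N := pow_pos hpos N
  have h14 : (D : ℝ) ≤ (2 + 3 ^ N * (N : ℝ) ^ 2 / M) * (M : ℝ) ^ N / (2 ^ N * N.factorial) := by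
    rw [le_div_iff₀ (by positivity)]
    calc (D : ℝ) * (2 ^ N * N.factorial) = 2 ^ N * (N.factorial * D) := by ring
      _ ≤ _ := h10
  refine h14.trans ?_
  have hX : 0 ≤ (2 + 3 ^ N * (N : ℝ) ^ 2 / M) * (M : ℝ) ^ N / (2 ^ N * N.factorial) := by positivity
  have h15 : 1 ≤ N.factorial * (M.choose N : ℝ) / (M + (1 - N)) ^ N := by
    rw [le_div_iff₀ hp, one_mul]; exact h11
  calc (2 + 3 ^ N * (N : ℝ) ^ 2 / M) * (M : ℝ) ^ N / (2 ^ N * N.factorial)
      ≤ (2 + 3 ^ N * (N : ℝ) ^ 2 / M) * (M : ℝ) ^ N / (2 ^ N * N.factorial) *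
        (N.factorial * (M.choose N : ℝ) / (M + (1 - N)) ^ N) := le_mul_of_one_le_right hX h15
    _ = _ := by
      field_simp

theorem limN (N : ℕ) : Tendsto (fun M : ℕ => (2 + 3 ^ N * (N : ℝ) ^ 2 / M) / 2 ^ N *
    ((M : ℝ) / (M + (1 - N))) ^ N) atTop (𝓝 (2 / 2 ^ N)) := by
  have h1 : Tendsto (fun M : ℕ => 3 ^ N * (N : ℝ) ^ 2 / (M : ℝ)) atTop (𝓝 0) :=
    tendsto_const_div_atTop_nhds_zero_nat _
  have h2 : Tendsto (fun M : ℕ => (M : ℝ) / (M + (1 - N))) atTop (𝓝 1) :=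
    tendsto_natCast_div_add_atTop _
  have h3 := (((tendsto_const_nhds (x := (2 : ℝ))).add h1).div_const (2 ^ N)).mul (h2.pow N)
  simpa using h3

end UPPaux

open UPPaux in
theorem upp (hAVG : AVG) (hTNN : TNN) (hNIN : NIN) (hCNT : CNT) (hFUL : FUL) : UPP := by
  intro φ hφ n
  obtain ⟨s, U, hs, hlim⟩ := hφ
  have h1 := hlim (2 * n + 1) (car n)
  have h2 := (limN (2 * n + 1)).comp hs.tendsto_atTop
  have h3 : (2 : ℝ) / 2 ^ (2 * n + 1) = (1 / 4) ^ n := by
    rw [pow_succ, pow_mul, one_div_pow]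
    norm_num
    field_simp
  rw [← h3]
  refine le_of_tendsto_of_tendsto h1 h2 ?_
  filter_upwards [hs.tendsto_atTop.eventually_ge_atTop (2 * n + 1)] with m hm
  exact main hAVG hTNN hNIN hCNT (2 * n + 1) (s m) (car n) (U m) ⟨n, rfl⟩ hm
    (fun S hS => hFUL _ _ n S hS)

end Pool.Agent.T2H46.Car
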